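import Pool.Agent.H904R6.CR.Asm
import Pool.Agent.H904R6.CR.Pos

/-!
Exactly for which permutations `π` the problem `RT^2_2` is computably reducible to `RT^2_2(π)`.
-/

namespace Pool.Agent.Results.MP_cb9c95_lc.Classification

open Pool.Agent.H904R6.CR.Real Pool.Agent.H904R6.CR.Neg

/-- The permutations 120 and 102 are separable; for every sequence `π` of distinct numbers
`RT^2_2` is computably reducible to `RT^2_2(π)` if and only if `π` contains neither 120 nor 102;
if `π` contains one of them, a single stable colouring `f` witnesses the failure. -/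
theorem result :
    (Separable [1, 2, 0] ∧ Separable [1, 0, 2]) ∧
    (∀ π : List ℕ, π.Nodup → (CRed RT22 (RTp π) ↔ ¬ Has120 π ∧ ¬ Has102 π)) ∧
    ∀ π : List ℕ, Has120 π ∨ Has102 π → NotRed π := by
  have hneg := Pool.Agent.H904R6.CR.Asm.hneg
  refine ⟨⟨sep120, sep102⟩, fun π hπ => ⟨fun h => ⟨fun h' => ?_, fun h' => ?_⟩, fun h => ?_⟩, hneg⟩
  · exact not_cred (hneg π (Or.inl h')) h
  · exact not_cred (hneg π (Or.inr h')) h
  · exact Pool.Agent.H904R6.CR.Pos.t π hπ h.1 h.2

end Pool.Agent.Results.MP_cb9c95_lc.Classification
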